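import Pool.Agent.TH822.J719
import Pool.Agent.H438R2.RZ.Base2
import Pool.Agent.TH280.BR.Stm
set_option autoImplicit false

/-! # The theorem of Carleson and Sjolin, for bounded functions with bounded support

Assembled from the bounds for annuli of the starting library (`H438R2.RZ.full_L4`). -/

namespace Pool.Agent.V11293.CS

open MeasureTheory Set Complex Filter
open scoped ENNReal RealInnerProductSpace Topology
open Pool.Agent.H438R2.RZ (e Good ft Pl Bump TR decomp mR full_L4)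
open Pool.Agent.H789R2.FR (E)
open Pool.Agent.TH278 (ML BR)
open Pool.Agent.TH822.J719

/-- coordinates on the plane -/
noncomputable def io : ℝ × ℝ ≃ᵐ E 2 :=
  MeasurableEquiv.finTwoArrow.symm.trans (MeasurableEquiv.toLp 2 (Fin 2 → ℝ))

theorem io_mp : MeasurePreserving io volume volume := by
  have h1 := (volume_preserving_finTwoArrow ℝ).symm
  have h2 := (EuclideanSpace.volume_preserving_symm_measurableEquiv_toLp (Fin 2)).symm
  exact h2.comp h1

theorem inner_io (z ξ : ℝ × ℝ) : (⟪io z, io ξ⟫ : ℝ) = z.1 * ξ.1 + z.2 * ξ.2 := by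
  rw [PiLp.inner_apply, Fin.sum_univ_two]
  change ξ.1 * z.1 + ξ.2 * z.2 = _
  ring

theorem norm_io (ξ : ℝ × ℝ) : ‖io ξ‖ ^ 2 = ξ.1 ^ 2 + ξ.2 ^ 2 := by
  rw [← real_inner_self_eq_norm_sq, inner_io]
  ring

theorem fh_io (g : ℝ × ℝ → ℂ) (ξ : ℝ × ℝ) : fh (fun x => g (io.symm x)) (io ξ) = ft g ξ := by
  unfold fh ft
  rw [← io_mp.integral_comp io.measurableEmbedding]
  refine integral_congr_ae (Eventually.of_forall fun z => ?_)
  simp only [inner_io, MeasurableEquiv.symm_apply_apply]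

theorem TR_io (M : ℝ → ℝ) (g : ℝ × ℝ → ℂ) (z : ℝ × ℝ) :
    TR 2 M (fun x => g (io.symm x)) (io z) =
      ∫ ξ : ℝ × ℝ, ((M (ξ.1 ^ 2 + ξ.2 ^ 2) : ℝ) : ℂ) * ft g ξ * e (z.1 * ξ.1 + z.2 * ξ.2) := by
  unfold TR
  rw [← io_mp.integral_comp io.measurableEmbedding]
  refine integral_congr_ae (Eventually.of_forall fun ξ => ?_)
  have h := fh_io g ξ
  unfold fh at h
  simp only [inner_io, norm_io, h]

theorem BR_io (δ : ℝ) (g : ℝ × ℝ → ℂ) (z : ℝ × ℝ) :
    BR δ (fun x => g (io.symm x)) (io z) = Pool.Agent.TH280.BR.UB δ 1 g z := by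
  unfold BR Pool.Agent.TH280.BR.UB
  rw [← io_mp.integral_comp io.measurableEmbedding]
  refine integral_congr_ae (Eventually.of_forall fun ξ => ?_)
  have h := fh_io g ξ
  unfold fh at h
  simp only [inner_io, norm_io, h]
  have h2 : Pool.Agent.TH280.BR.ft2 g ξ = ft g ξ := rfl
  have h3 : ∀ x, Pool.Agent.TH280.LS.e x = e x := fun _ => rfl
  rw [h2, h3]
  ring

theorem lint_io (F : E 2 → ℂ) : ∫⁻ x : E 2, ‖F x‖ₑ ^ 4 = ∫⁻ z : ℝ × ℝ, ‖F (io z)‖ₑ ^ 4 :=
  (io_mp.lintegral_comp_emb io.measurableEmbedding fun x => ‖F x‖ₑ ^ 4).symm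

theorem e4 {α : Type*} [MeasurableSpace α] {μ : Measure α} (F : α → ℂ) :
    eLpNorm F (ENNReal.ofReal 4) μ = (∫⁻ x, ‖F x‖ₑ ^ 4 ∂μ) ^ (1 / 4 : ℝ) := by
  have h0 : ENNReal.ofReal 4 ≠ 0 := by simp
  rw [eLpNorm_eq_lintegral_rpow_enorm_toReal h0 ENNReal.ofReal_ne_top,
    ENNReal.toReal_ofReal (by norm_num)]
  congr 1
  refine lintegral_congr fun x => ?_
  rw [show (4 : ℝ) = ((4 : ℕ) : ℝ) by norm_num, ENNReal.rpow_natCast]

open Pool.Agent.H438R2.RZ.R8aux in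
theorem smooth_int (n : ℕ) (ψ : ℝ → ℝ) (hψ : Bump ψ) (p : ℝ) (hp : 1 ≤ p) (L : ℝ)
    (hL : 1 ≤ L) : ∃ C : ℝ, 0 < C ∧ ∀ f : E n → ℂ, Integrable f → Measurable f →
      eLpNorm (TR n (fun u => ψ (L ^ 2 * (1 - u))) f) (ENNReal.ofReal p) volume ≤
        ENNReal.ofReal C * eLpNorm f (ENNReal.ofReal p) volume := by
  have hMd : ContDiff ℝ (⊤ : ℕ∞) (fun u : ℝ => ψ (L ^ 2 * (1 - u))) := hψ.1.comp (by fun_prop)
  have hM2 : ∀ u : ℝ, 2 < u → (fun u : ℝ => ψ (L ^ 2 * (1 - u))) u = 0 := by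
    intro u hu
    by_contra h
    have h1 := (hψ.2 _ h).1
    nlinarith [sq_nonneg L]
  have hint := ker_int (n := n) _ hMd hM2
  refine ⟨(∫⁻ x, ‖Ker n (fun u : ℝ => ψ (L ^ 2 * (1 - u))) x‖ₑ).toReal + 1,
    by positivity, fun f hf hfm => ?_⟩
  refine (main _ hMd.continuous (fun g hg x => conv _ hMd.continuous hM2 g hg x) p hp _
    hf hfm).trans ?_
  gcongr
  have hfin : (∫⁻ x, ‖Ker n (fun u : ℝ => ψ (L ^ 2 * (1 - u))) x‖ₑ) ≠ ∞ :=
    hint.hasFiniteIntegral.ne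
  rw [ENNReal.le_ofReal_iff_toReal_le hfin (by positivity)]
  linarith

theorem sum_cls (n : ℕ) (p δ : ℝ) (hp : 1 ≤ p) (hδ : 0 < δ)
    (Cl : (E n → ℂ) → Prop) (hCl : ∀ f, Cl f → Integrable f ∧ Measurable f)
    (h0 : ∀ ψ : ℝ → ℝ, Bump ψ → ∃ C K : ℝ, 0 < C ∧ 0 < K ∧ ∀ L : ℝ, 20 ≤ L →
      ∀ f : E n → ℂ, Cl f → eLpNorm (TR n (ML ψ L) f) (ENNReal.ofReal p) volume ≤
        ENNReal.ofReal (C * (1 + Real.log L) ^ K) * eLpNorm f (ENNReal.ofReal p) volume) :
    ∃ C : ℝ, ∀ f : E n → ℂ, Cl f →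
      eLpNorm (BR δ f) (ENNReal.ofReal p) volume ≤
        ENNReal.ofReal C * eLpNorm f (ENNReal.ofReal p) volume := by
  obtain ⟨ψ, hψ, hd⟩ := decomp δ hδ
  have hp1 : 1 ≤ ENNReal.ofReal p := by
    rw [← ENNReal.ofReal_one]; exact ENNReal.ofReal_le_ofReal hp
  obtain ⟨C1, K, hC1, hK, hb⟩ := h0 ψ hψ
  set s : ℝ := δ with hs
  set C0 : ℝ := C1 * (1 + K / δ) ^ K with hC0d
  have hC0 : 0 < C0 := by positivity
  set Lj : ℕ → ℝ := fun j => Real.sqrt (2 ^ j) with hLj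
  have hLsq : ∀ j, Lj j ^ 2 = 2 ^ j := fun j => Real.sq_sqrt (by positivity)
  have hL1 : ∀ j, 1 ≤ Lj j := fun j => by
    rw [hLj]; simp only [Real.one_le_sqrt]; exact one_le_pow₀ (by norm_num)
  have hsm := fun j : ℕ => smooth_int n ψ hψ p hp (Lj j) (hL1 j)
  choose Cj hCj hCb using hsm
  set a : ℕ → ℝ := fun j => if j < 9 then Cj j else C0 * Lj j ^ s with ha
  have ha0 : ∀ j, 0 ≤ a j := fun j => by
    rw [ha]; simp only
    split_ifs
    · exact (hCj j).le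
    · have : 0 < Lj j ^ s := Real.rpow_pos_of_pos (by linarith [hL1 j]) _
      positivity
  have hpiece : ∀ (j : ℕ) (f : E n → ℂ), Cl f →
      eLpNorm (TR n (fun u => ψ (2 ^ j * (1 - u))) f) (ENNReal.ofReal p) volume ≤
        ENNReal.ofReal (a j) * eLpNorm f (ENNReal.ofReal p) volume := by
    intro j f hf
    rw [← hLsq j]
    by_cases hj : j < 9
    · have := hCb j f (hCl f hf).1 (hCl f hf).2
      simp only [ha, if_pos hj]
      exact this
    · simp only [ha, if_neg hj]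
      have h20 : 20 ≤ Lj j := by
        rw [hLj]; simp only
        apply Real.le_sqrt_of_sq_le
        have : (2 : ℝ) ^ 9 ≤ 2 ^ j := pow_le_pow_right₀ (by norm_num) (by omega)
        linarith
      refine (hb (Lj j) h20 f hf).trans (mul_le_mul' (ENNReal.ofReal_le_ofReal ?_) le_rfl)
      rw [hC0d, mul_assoc]
      exact mul_le_mul_of_nonneg_left (log_pow_le K δ hK hδ (Lj j) (hL1 j)) hC1.le
  have hsum : Summable fun j : ℕ => (2 : ℝ) ^ (-(δ * j)) * a j := by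
    have h1 : Summable fun j : ℕ => (2 : ℝ) ^ (-(δ * (j + 9 : ℕ))) * a (j + 9) := by
      have h2 : (fun j : ℕ => (2 : ℝ) ^ (-(δ * (j + 9 : ℕ))) * a (j + 9)) =
          fun j : ℕ => ((2 : ℝ) ^ (-(δ * 9) + 9 * s / 2) * C0) * ((2 : ℝ) ^ (s / 2 - δ)) ^ j := by
        funext j
        have h3 : ¬ (j + 9 < 9) := by omega
        simp only [ha, if_neg h3, hLj]
        rw [Real.sqrt_eq_rpow, ← Real.rpow_mul (by positivity), ← Real.rpow_natCast 2 (j + 9),
          ← Real.rpow_mul (by norm_num), ← Real.rpow_natCast _ j, ← Real.rpow_mul (by norm_num)]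
        rw [show (2 : ℝ) ^ (-(δ * ((j + 9 : ℕ) : ℝ))) * (C0 * 2 ^ ((((j + 9 : ℕ) : ℝ)) * (1 / 2 * s))) =
          C0 * (2 ^ (-(δ * ((j + 9 : ℕ) : ℝ))) * 2 ^ ((((j + 9 : ℕ) : ℝ)) * (1 / 2 * s))) by ring,
          ← Real.rpow_add (by norm_num)]
        rw [show (2 : ℝ) ^ (-(δ * 9) + 9 * s / 2) * C0 * 2 ^ ((s / 2 - δ) * (j : ℝ)) =
          C0 * (2 ^ (-(δ * 9) + 9 * s / 2) * 2 ^ ((s / 2 - δ) * (j : ℝ))) by ring,
          ← Real.rpow_add (by norm_num)]
        congr 2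
        push_cast; ring
      rw [h2]
      exact (summable_geometric_of_lt_one (Real.rpow_nonneg (by norm_num) _)
        (Real.rpow_lt_one_of_one_lt_of_neg (by norm_num) (by rw [hs]; linarith))).mul_left _
    exact (summable_nat_add_iff 9).mp h1
  have h2n : ∀ j : ℕ, 0 ≤ (2 : ℝ) ^ (-(δ * j)) := fun j => Real.rpow_nonneg (by norm_num) _
  refine ⟨∑' j : ℕ, (2 : ℝ) ^ (-(δ * j)) * a j, fun f hf => ?_⟩
  have hfi : Integrable f (volume : Measure (E n)) := (hCl f hf).1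
  have hTc : ∀ j : ℕ, Continuous (TR n (fun u => ψ (2 ^ j * (1 - u))) f) := by
    intro j
    refine TR_cont _ ((bump_cont hψ).comp (by fun_prop)) (fun u hu => bump_zero hψ ?_) _ hfi
    have : (0 : ℝ) < 2 ^ j := by positivity
    nlinarith
  set P : ℕ → E n → ℂ := fun J x => ∑ j ∈ Finset.range J,
    (((2 : ℝ) ^ (-(δ * j)) : ℝ) : ℂ) * TR n (fun u => ψ (2 ^ j * (1 - u))) f x
    with hP
  have hPm : ∀ J, AEStronglyMeasurable (P J) volume := by
    intro J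
    have : Continuous (P J) := by
      rw [hP]
      exact continuous_finsetSum _ fun j _ => continuous_const.mul (hTc j)
    exact this.aestronglyMeasurable
  have hPlim : ∀ x, Tendsto (fun J => P J x) atTop (𝓝 (BR δ f x)) := fun x =>
    (hasSum_pieces δ hδ ψ hψ hd f hfi x).tendsto_sum_nat
  have hlim := Lp.eLpNorm_lim_le_liminf_eLpNorm (p := ENNReal.ofReal p) hPm _
    (Filter.Eventually.of_forall hPlim)
  refine hlim.trans ?_
  refine liminf_le_of_le (by isBoundedDefault) ?_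
  intro b hb'
  obtain ⟨J, hJ⟩ := hb'.exists
  refine hJ.trans ?_
  calc eLpNorm (P J) (ENNReal.ofReal p) volume
      ≤ ∑ j ∈ Finset.range J, eLpNorm (fun x => (((2 : ℝ) ^ (-(δ * j)) : ℝ) : ℂ) *
          TR n (fun u => ψ (2 ^ j * (1 - u))) f x) (ENNReal.ofReal p) volume := by
        have h := eLpNorm_sum_le (μ := (volume : Measure (E n))) (p := ENNReal.ofReal p)
          (f := fun (j : ℕ) (x : E n) => (((2 : ℝ) ^ (-(δ * j)) : ℝ) : ℂ) *
          TR n (fun u => ψ (2 ^ j * (1 - u))) f x) (s := Finset.range J)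
          (fun j _ => (continuous_const.mul (hTc j)).aestronglyMeasurable) hp1
        have e2 : (∑ j ∈ Finset.range J, fun (x : E n) => (((2 : ℝ) ^ (-(δ * j)) : ℝ) : ℂ) *
          TR n (fun u => ψ (2 ^ j * (1 - u))) f x) = P J := by
          funext x; rw [Finset.sum_apply]
        rw [e2] at h
        exact h
    _ ≤ ∑ j ∈ Finset.range J, ENNReal.ofReal ((2 : ℝ) ^ (-(δ * j)) * a j) *
          eLpNorm f (ENNReal.ofReal p) volume := by
        refine Finset.sum_le_sum fun j _ => ?_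
        have h := eLpNorm_const_smul (((2 : ℝ) ^ (-(δ * j)) : ℝ) : ℂ)
          (TR n (fun u => ψ (2 ^ j * (1 - u))) f) (ENNReal.ofReal p)
          (volume : Measure (E n))
        have e3 : ‖(((2 : ℝ) ^ (-(δ * j)) : ℝ) : ℂ)‖ₑ = ENNReal.ofReal ((2 : ℝ) ^ (-(δ * j))) := by
          rw [← ofReal_norm, Complex.norm_real, Real.norm_of_nonneg (h2n j)]
        rw [e3] at h
        refine (le_of_eq h).trans ?_
        rw [ENNReal.ofReal_mul (h2n j), mul_assoc]
        gcongr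
        exact hpiece j f hf
    _ = ENNReal.ofReal (∑ j ∈ Finset.range J, (2 : ℝ) ^ (-(δ * j)) * a j) *
          eLpNorm f (ENNReal.ofReal p) volume := by
        rw [← Finset.sum_mul, ENNReal.ofReal_sum_of_nonneg]
        intro j _; exact mul_nonneg (h2n j) (ha0 j)
    _ ≤ ENNReal.ofReal (∑' j : ℕ, (2 : ℝ) ^ (-(δ * j)) * a j) *
          eLpNorm f (ENNReal.ofReal p) volume := by
        gcongr
        exact hsum.sum_le_tsum _ fun j _ => mul_nonneg (h2n j) (ha0 j)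

theorem good_int {g : ℝ × ℝ → ℂ} (hg : Good g) : Integrable g := by
  obtain ⟨hm, ⟨M, hM⟩, ⟨B, hB⟩⟩ := hg
  have hM0 : 0 ≤ M := (norm_nonneg _).trans (hM 0)
  have hi : Integrable ((Icc (-B) B ×ˢ Icc (-B) B).indicator (fun _ : ℝ × ℝ => M)) := by
    rw [integrable_indicator_iff (measurableSet_Icc.prod measurableSet_Icc)]
    exact integrableOn_const (isCompact_Icc.prod isCompact_Icc).measure_lt_top.ne
  refine hi.mono' hm.aestronglyMeasurable (Eventually.of_forall fun z => ?_)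
  by_cases hz : g z = 0
  · rw [hz, norm_zero]
    exact indicator_nonneg (fun _ _ => hM0) _
  · have h1 := hB z hz
    rw [indicator_of_mem (mem_prod.2 ⟨abs_le.1 h1.1, abs_le.1 h1.2⟩)]
    exact hM z

/-- the estimate for good functions, radius one -/
theorem good_one (δ : ℝ) (hδ : 0 < δ) : ∃ C : ℝ, 0 < C ∧ ∀ g : ℝ × ℝ → ℂ, Good g →
    ∫⁻ z : ℝ × ℝ, ‖Pool.Agent.TH280.BR.UB δ 1 g z‖ₑ ^ 4 ≤
      ENNReal.ofReal C * ∫⁻ z : ℝ × ℝ, ‖g z‖ₑ ^ 4 := by
  obtain ⟨C, hC⟩ := sum_cls 2 4 δ (by norm_num) hδ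
    (fun f => ∃ g : ℝ × ℝ → ℂ, Good g ∧ f = fun x => g (io.symm x))
    (by
      rintro f ⟨g, hg, rfl⟩
      refine ⟨?_, hg.1.comp io.symm.measurable⟩
      exact (io_mp.symm io).integrable_comp_of_integrable (good_int hg))
    (by
      intro ψ hψ
      obtain ⟨C, hC, h⟩ := full_L4 ψ hψ
      refine ⟨C ^ (1 / 4 : ℝ), 1 / 2, by positivity, by norm_num, ?_⟩
      rintro L hL f ⟨g, hg, rfl⟩
      have hlog : 0 ≤ 1 + Real.log L := by
        have := Real.log_nonneg (by linarith : (1 : ℝ) ≤ L)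
        linarith
      rw [e4, e4, lint_io, lint_io]
      have h1 : ∀ z : ℝ × ℝ, TR 2 (ML ψ L) (fun x => g (io.symm x)) (io z) = Pl (mR ψ L) g z :=
        fun z => by rw [TR_io]; rfl
      simp only [h1, MeasurableEquiv.symm_apply_apply]
      have h2 := ENNReal.rpow_le_rpow (h L (by linarith) g hg) (by norm_num : (0 : ℝ) ≤ 1 / 4)
      refine h2.trans (le_of_eq ?_)
      rw [ENNReal.mul_rpow_of_nonneg _ _ (by norm_num : (0 : ℝ) ≤ 1 / 4),
        ENNReal.ofReal_rpow_of_nonneg (by positivity) (by norm_num)]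
      congr 2
      rw [Real.mul_rpow hC.le (by positivity), ← Real.rpow_natCast, ← Real.rpow_mul hlog]
      norm_num)
  refine ⟨(max C 0) ^ 4 + 1, by positivity, fun g hg => ?_⟩
  have h := hC (fun x => g (io.symm x)) ⟨g, hg, rfl⟩
  rw [e4, e4, lint_io, lint_io] at h
  simp only [BR_io, MeasurableEquiv.symm_apply_apply] at h
  have h2 := ENNReal.rpow_le_rpow h (by norm_num : (0 : ℝ) ≤ 4)
  rw [← ENNReal.rpow_mul, ENNReal.mul_rpow_of_nonneg _ _ (by norm_num : (0 : ℝ) ≤ 4),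
    ← ENNReal.rpow_mul] at h2
  norm_num at h2
  refine h2.trans ?_
  gcongr
  refine (pow_le_pow_left' (ENNReal.ofReal_le_ofReal (le_max_left C 0)) 4).trans ?_
  rw [← ENNReal.ofReal_pow (le_max_right _ _)]
  exact ENNReal.ofReal_le_ofReal (by linarith)

end Pool.Agent.V11293.CS
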