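import Pool.Agent.V11293.CS.A
set_option autoImplicit false

/-! # The theorem of Carleson and Sjolin, for integrable functions, uniformly in the radius -/

namespace Pool.Agent.V11293.CS

open MeasureTheory Set Complex Filter
open scoped ENNReal RealInnerProductSpace Topology
open Pool.Agent.H438R2.RZ (e Good ft Pl Bump TR decomp mR full_L4)
open Pool.Agent.H789R2.FR (E)
open Pool.Agent.TH278 (ML BR)
open Pool.Agent.TH822.J719
open Pool.Agent.TH280.BR (UB S_PL)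

/-- the multiplier -/
noncomputable def Md (δ u : ℝ) : ℝ := (max (1 - u) 0) ^ δ

theorem Md_cont {δ : ℝ} (hδ : 0 < δ) : Continuous (Md δ) := by
  unfold Md
  exact (by fun_prop : Continuous fun u : ℝ => max (1 - u) 0).rpow_const fun _ => Or.inr hδ.le

theorem Md_zero {δ : ℝ} (hδ : 0 < δ) (u : ℝ) (hu : 2 < u) : Md δ u = 0 := by
  unfold Md
  rw [max_eq_right (by linarith), Real.zero_rpow hδ.ne']

theorem BR_eq (δ : ℝ) (f : E 2 → ℂ) : BR δ f = TR 2 (Md δ) f := rfl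

theorem good_of {f : E 2 → ℂ} (hf : Measurable f) (j : ℕ) :
    Good fun z : ℝ × ℝ => ({x : E 2 | ‖f x‖ ≤ j ∧ ‖x‖ ≤ j}.indicator f) (io z) := by
  have hs : MeasurableSet {x : E 2 | ‖f x‖ ≤ j ∧ ‖x‖ ≤ j} :=
    (measurableSet_le hf.norm measurable_const).inter (measurableSet_le measurable_norm measurable_const)
  refine ⟨(hf.indicator hs).comp io.measurable, ⟨j, fun z => ?_⟩, ⟨j, fun z hz => ?_⟩⟩
  · by_cases h : io z ∈ {x : E 2 | ‖f x‖ ≤ j ∧ ‖x‖ ≤ j}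
    · simp only
      rw [indicator_of_mem h]; exact h.1
    · simp only
      rw [indicator_of_notMem h, norm_zero]; exact Nat.cast_nonneg j
  · have h : io z ∈ {x : E 2 | ‖f x‖ ≤ j ∧ ‖x‖ ≤ j} := by
      by_contra h
      exact hz (indicator_of_notMem h _)
    have h1 : ‖io z‖ ^ 2 ≤ (j : ℝ) ^ 2 := pow_le_pow_left₀ (norm_nonneg _) h.2 2
    rw [norm_io] at h1
    exact ⟨abs_le_of_sq_le_sq (by nlinarith [sq_nonneg z.2]) (Nat.cast_nonneg j),
      abs_le_of_sq_le_sq (by nlinarith [sq_nonneg z.1]) (Nat.cast_nonneg j)⟩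

theorem int_one (δ : ℝ) (hδ : 0 < δ) : ∃ C : ℝ, 0 < C ∧ ∀ f : E 2 → ℂ, Integrable f →
    Measurable f → ∫⁻ x, ‖BR δ f x‖ₑ ^ 4 ≤ ENNReal.ofReal C * ∫⁻ x, ‖f x‖ₑ ^ 4 := by
  obtain ⟨C, hC, h⟩ := good_one δ hδ
  refine ⟨C, hC, fun f hf hfm => ?_⟩
  obtain ⟨F, hF⟩ : ∃ F : ℕ → E 2 → ℂ, F = fun j : ℕ =>
      {x : E 2 | ‖f x‖ ≤ (j : ℝ) ∧ ‖x‖ ≤ (j : ℝ)}.indicator f :=
    ⟨_, rfl⟩
  have hs : ∀ j : ℕ, MeasurableSet {x : E 2 | ‖f x‖ ≤ j ∧ ‖x‖ ≤ j} := fun j =>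
    (measurableSet_le hfm.norm measurable_const).inter (measurableSet_le measurable_norm measurable_const)
  have hFi : ∀ j, Integrable (F j) := fun j => by rw [hF]; exact hf.indicator (hs j)
  have hFle : ∀ j x, ‖F j x‖ ≤ ‖f x‖ := fun j x => by rw [hF]; exact norm_indicator_le_norm_self _ _
  have hFlim : ∀ x, Tendsto (fun j => F j x) atTop (𝓝 (f x)) := by
    intro x
    obtain ⟨N, hN⟩ := exists_nat_ge (max ‖f x‖ ‖x‖)
    refine tendsto_const_nhds.congr' ?_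
    filter_upwards [eventually_ge_atTop N] with j hj
    have hj' : (N : ℝ) ≤ j := by exact_mod_cast hj
    rw [hF]
    exact (indicator_of_mem (show x ∈ {x : E 2 | ‖f x‖ ≤ j ∧ ‖x‖ ≤ j} from
      ⟨((le_max_left _ _).trans hN).trans hj', ((le_max_right _ _).trans hN).trans hj'⟩) f).symm
  have hft : ∀ ξ, Tendsto (fun j => fh (F j) ξ) atTop (𝓝 (fh f ξ)) := by
    intro ξ
    refine tendsto_integral_of_dominated_convergence (fun y => ‖f y‖)
      (fun j => (fh_int (F j) (hFi j) ξ).aestronglyMeasurable) hf.norm (fun j => ?_) ?_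
    · refine Eventually.of_forall fun y => ?_
      rw [norm_mul, norm_e, one_mul]
      exact hFle j y
    · exact Eventually.of_forall fun y => (hFlim y).const_mul _
  have hBR : ∀ x, Tendsto (fun j => BR δ (F j) x) atTop (𝓝 (BR δ f x)) := by
    intro x
    rw [BR_eq]
    have h1 := (M_int (n := 2) (Md δ) (Md_cont hδ) (Md_zero hδ)).norm.mul_const (∫ y, ‖f y‖)
    refine tendsto_integral_of_dominated_convergence
      (fun ξ => ‖((Md δ (‖ξ‖ ^ 2) : ℝ) : ℂ)‖ * ∫ y, ‖f y‖)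
      (fun j => (TR_int (Md δ) (Md_cont hδ) (Md_zero hδ) (F j) (hFi j) x).aestronglyMeasurable)
      h1 (fun j => ?_) ?_
    · refine Eventually.of_forall fun ξ => ?_
      rw [norm_mul, norm_mul, norm_e, mul_one]
      refine mul_le_mul_of_nonneg_left ?_ (norm_nonneg _)
      refine (fh_bdd (F j) ξ).trans ?_
      exact integral_mono (hFi j).norm hf.norm (hFle j)
    · exact Eventually.of_forall fun ξ => ((hft ξ).const_mul _).mul_const _
  have hb : ∀ j, ∫⁻ x, ‖BR δ (F j) x‖ₑ ^ 4 ≤ ENNReal.ofReal C * ∫⁻ x, ‖f x‖ₑ ^ 4 := by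
    intro j
    have h1 := h _ (good_of hfm j)
    have h2 : ∀ z, UB δ 1 (fun z : ℝ × ℝ => ({x : E 2 | ‖f x‖ ≤ j ∧ ‖x‖ ≤ j}.indicator f) (io z)) z =
        BR δ (F j) (io z) := by
      intro z
      rw [← BR_io]
      simp only [MeasurableEquiv.apply_symm_apply, hF]
    simp only [h2] at h1
    rw [lint_io, lint_io f]
    refine h1.trans ?_
    gcongr with z
    have h3 := hFle j (io z)
    rw [hF] at h3
    rw [← ofReal_norm, ← ofReal_norm]
    exact ENNReal.ofReal_le_ofReal h3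
  have hmeas : ∀ j, Measurable fun x => ‖BR δ (F j) x‖ₑ ^ 4 := fun j =>
    ((TR_cont (Md δ) (Md_cont hδ) (Md_zero hδ) (F j) (hFi j)).measurable.enorm.pow_const 4)
  calc ∫⁻ x, ‖BR δ f x‖ₑ ^ 4 = ∫⁻ x, liminf (fun j => ‖BR δ (F j) x‖ₑ ^ 4) atTop := by
        refine lintegral_congr fun x => ?_
        have h1 : Tendsto (fun j => ‖BR δ (F j) x‖ₑ ^ 4) atTop (𝓝 (‖BR δ f x‖ₑ ^ 4)) :=
          ((ENNReal.continuous_pow 4).tendsto _).comp (hBR x).enorm
        exact h1.liminf_eq.symm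
    _ ≤ liminf (fun j => ∫⁻ x, ‖BR δ (F j) x‖ₑ ^ 4) atTop := lintegral_liminf_le hmeas
    _ ≤ ENNReal.ofReal C * ∫⁻ x, ‖f x‖ₑ ^ 4 :=
        liminf_le_of_le (by isBoundedDefault) fun b hb' => by
          obtain ⟨j, hj⟩ := hb'.exists
          exact hj.trans (hb j)

theorem scale {r : ℝ} (hr : 0 < r) (F : E 2 → ℝ≥0∞) :
    ∫⁻ x, F (r • x) = ENNReal.ofReal (|(r ^ 2)⁻¹|) * ∫⁻ x, F x := by
  have h := Measure.map_addHaar_smul (volume : Measure (E 2)) hr.ne'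
  rw [finrank_euclideanSpace_fin] at h
  have h2 : ∫⁻ x, F (r • x) = ∫⁻ x, F x ∂(Measure.map (fun x : E 2 => r • x) volume) :=
    (lintegral_map_equiv F (Homeomorph.smulOfNeZero r hr.ne').toMeasurableEquiv).symm
  rw [h2]
  have h3 : Measure.map (fun x : E 2 => r • x) volume =
      ENNReal.ofReal (|(r ^ 2)⁻¹|) • (volume : Measure (E 2)) := h
  rw [h3, lintegral_smul_measure, smul_eq_mul]

theorem scale_fh {r : ℝ} (hr : 0 < r) (f : E 2 → ℂ) (η : E 2) :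
    fh (fun y => f (r⁻¹ • y)) η = ((r ^ 2 : ℝ) : ℂ) * fh f (r • η) := by
  have h := Measure.integral_comp_smul (volume : Measure (E 2))
    (fun y => e (-(⟪y, η⟫ : ℝ)) * f (r⁻¹ • y)) r
  rw [finrank_euclideanSpace_fin] at h
  have h2 : (fun y : E 2 => e (-(⟪r • y, η⟫ : ℝ)) * f (r⁻¹ • r • y)) =
      fun y => e (-(⟪y, r • η⟫ : ℝ)) * f y := by
    funext y
    rw [smul_smul, inv_mul_cancel₀ hr.ne', one_smul, inner_smul_left, inner_smul_right]
    rfl
  rw [h2] at h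
  have h3 : |(r ^ 2)⁻¹| = (r ^ 2)⁻¹ := abs_of_pos (by positivity)
  rw [h3] at h
  unfold fh
  rw [h, Complex.real_smul, ← mul_assoc, ← Complex.ofReal_mul, mul_inv_cancel₀ (by positivity),
    Complex.ofReal_one, one_mul]

theorem scale_UB {δ v : ℝ} (hv : 0 < v) (f : E 2 → ℂ) (x : E 2) :
    ∫ ξ : E 2, (((max (v - ‖ξ‖ ^ 2) 0) ^ δ : ℝ) : ℂ) * fh f ξ * e (⟪x, ξ⟫ : ℝ) =
      ((v ^ δ : ℝ) : ℂ) * BR δ (fun y => f ((Real.sqrt v)⁻¹ • y)) (Real.sqrt v • x) := by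
  obtain ⟨r, hr⟩ : ∃ r, r = Real.sqrt v := ⟨_, rfl⟩
  have hr0 : 0 < r := by rw [hr]; exact Real.sqrt_pos.2 hv
  have hr2 : r ^ 2 = v := by rw [hr]; exact Real.sq_sqrt hv.le
  rw [← hr]
  have h := Measure.integral_comp_smul (volume : Measure (E 2))
    (fun ξ => (((max (v - ‖ξ‖ ^ 2) 0) ^ δ : ℝ) : ℂ) * fh f ξ * e (⟪x, ξ⟫ : ℝ)) r
  rw [finrank_euclideanSpace_fin, abs_of_pos (by positivity : 0 < (r ^ 2)⁻¹)] at h
  have h1 : ∫ ξ : E 2, (((max (v - ‖ξ‖ ^ 2) 0) ^ δ : ℝ) : ℂ) * fh f ξ * e (⟪x, ξ⟫ : ℝ) =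
      ((r ^ 2 : ℝ) : ℂ) * ∫ ξ : E 2, (((max (v - ‖r • ξ‖ ^ 2) 0) ^ δ : ℝ) : ℂ) * fh f (r • ξ) *
        e (⟪x, r • ξ⟫ : ℝ) := by
    rw [h, Complex.real_smul, ← mul_assoc, ← Complex.ofReal_mul, mul_inv_cancel₀ (by positivity),
      Complex.ofReal_one, one_mul]
  rw [h1]
  unfold BR
  rw [← integral_const_mul, ← integral_const_mul]
  refine integral_congr_ae (Eventually.of_forall fun ξ => ?_)
  have h2 := scale_fh hr0 f ξ
  unfold fh at h2 ⊢
  simp only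
  rw [h2]
  have h3 : max (v - ‖r • ξ‖ ^ 2) 0 = v * max (1 - ‖ξ‖ ^ 2) 0 := by
    rw [norm_smul, mul_pow, Real.norm_of_nonneg hr0.le, hr2, mul_max_of_nonneg _ _ hv.le, mul_zero]
    congr 1
    ring
  rw [h3, Real.mul_rpow hv.le (le_max_right _ _), inner_smul_left, inner_smul_right]
  push_cast
  simp only [conj_trivial]
  ring

theorem pl : S_PL := by
  intro δ hδ
  obtain ⟨C, hC, h⟩ := int_one δ hδ
  refine ⟨C, hC, fun v g hv hg => ?_⟩
  rcases le_or_gt v 0 with h0 | h0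
  · have h1 : ∀ z, UB δ v g z = 0 := by
      intro z
      unfold UB
      have h2 : ∀ ξ : ℝ × ℝ, max (v - (ξ.1 ^ 2 + ξ.2 ^ 2)) 0 = 0 := fun ξ =>
        max_eq_right (by nlinarith [sq_nonneg ξ.1, sq_nonneg ξ.2])
      simp only [h2, Real.zero_rpow hδ.ne', Complex.ofReal_zero, zero_mul, mul_zero,
        integral_zero]
    simp only [h1, enorm_zero]
    simp
  · obtain ⟨g', hg', hgg⟩ := hg.1
    obtain ⟨f, hf⟩ : ∃ f : E 2 → ℂ, f = fun x => g' (io.symm x) := ⟨_, rfl⟩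
    have hgi' : Integrable g' := hg.congr hgg
    have hfi : Integrable f := by
      rw [hf]
      exact (io_mp.symm io).integrable_comp_of_integrable hgi'
    have hfm : Measurable f := by
      rw [hf]
      exact hg'.measurable.comp io.symm.measurable
    obtain ⟨r, hr⟩ : ∃ r, r = Real.sqrt v := ⟨_, rfl⟩
    have hr0 : 0 < r := by rw [hr]; exact Real.sqrt_pos.2 h0
    have h1 : ∀ z, UB δ v g z = ((v ^ δ : ℝ) : ℂ) * BR δ (fun y => f (r⁻¹ • y)) (r • io z) := by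
      intro z
      rw [hr, ← scale_UB h0]
      unfold UB
      rw [← io_mp.integral_comp io.measurableEmbedding]
      refine integral_congr_ae (Eventually.of_forall fun ξ => ?_)
      simp only [norm_io, inner_io]
      rw [hf, fh_io]
      have h2 : Pool.Agent.TH280.BR.ft2 g ξ = ft g' ξ := by
        unfold Pool.Agent.TH280.BR.ft2 ft
        refine integral_congr_ae ?_
        filter_upwards [hgg] with z hz
        rw [hz]
        rfl
      have h3 : ∀ x, Pool.Agent.TH280.LS.e x = e x := fun _ => rfl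
      rw [h2, h3]
      ring
    have hv1 : v ^ δ ≤ 1 := Real.rpow_le_one h0.le hv hδ.le
    have hi : Integrable (fun y => f (r⁻¹ • y)) := hfi.comp_smul (inv_ne_zero hr0.ne')
    have hm : Measurable (fun y => f (r⁻¹ • y)) := hfm.comp (measurable_const_smul _)
    have h4 := h _ hi hm
    calc ∫⁻ z : ℝ × ℝ, ‖UB δ v g z‖ₑ ^ 4
        ≤ ∫⁻ z : ℝ × ℝ, ‖BR δ (fun y => f (r⁻¹ • y)) (r • io z)‖ₑ ^ 4 := by
          refine lintegral_mono fun z => ?_
          rw [h1 z, enorm_mul]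
          refine pow_le_pow_left' ?_ 4
          refine mul_le_of_le_one_left' ?_
          rw [← ofReal_norm, Complex.norm_real, Real.norm_of_nonneg (Real.rpow_nonneg h0.le _)]
          exact ENNReal.ofReal_le_one.2 hv1
      _ = ∫⁻ x : E 2, ‖BR δ (fun y => f (r⁻¹ • y)) (r • x)‖ₑ ^ 4 :=
          (lint_io fun x => BR δ (fun y => f (r⁻¹ • y)) (r • x)).symm
      _ = ENNReal.ofReal (|(r ^ 2)⁻¹|) * ∫⁻ x : E 2, ‖BR δ (fun y => f (r⁻¹ • y)) x‖ₑ ^ 4 :=
          scale hr0 fun x => ‖BR δ (fun y => f (r⁻¹ • y)) x‖ₑ ^ 4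
      _ ≤ ENNReal.ofReal (|(r ^ 2)⁻¹|) * (ENNReal.ofReal C * ∫⁻ x : E 2, ‖f (r⁻¹ • x)‖ₑ ^ 4) := by
          gcongr
      _ = ENNReal.ofReal C * (ENNReal.ofReal (|(r ^ 2)⁻¹|) * ∫⁻ x : E 2, ‖f (r⁻¹ • x)‖ₑ ^ 4) := by
          ring
      _ = ENNReal.ofReal C * ∫⁻ x : E 2, ‖f (r⁻¹ • r • x)‖ₑ ^ 4 := by
          rw [scale hr0 fun x => ‖f (r⁻¹ • x)‖ₑ ^ 4]
      _ = ENNReal.ofReal C * ∫⁻ z : ℝ × ℝ, ‖g z‖ₑ ^ 4 := by
          have h5 : ∀ x : E 2, r⁻¹ • r • x = x := fun x => by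
            rw [smul_smul, inv_mul_cancel₀ hr0.ne', one_smul]
          simp only [h5]
          rw [lint_io]
          congr 1
          refine lintegral_congr_ae ?_
          filter_upwards [hgg] with z hz
          rw [hf, hz]
          simp only [MeasurableEquiv.symm_apply_apply]

end Pool.Agent.V11293.CS
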